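import Pool.Agent.helper69.LN.Spec

/-!
# Project LN, row ARI: elementary growth
-/

set_option autoImplicit false

namespace Pool.Agent.LN

open Finset Pool.Agent.helper38.Neg Pool.Agent.helper55.NT

theorem ARI_exp (a b K : ℕ) : ∃ T0 : ℕ, ∀ t, T0 ≤ t → a * t ^ b + K < 2 ^ t := by
  have h := tendsto_pow_const_div_const_pow_of_one_lt b (r := (2 : ℝ)) (by norm_num)
  have hpos : (0 : ℝ) < 1 / ((a : ℝ) + K + 1) := by positivity
  have h' := (h.eventually_lt_const hpos).and (Filter.eventually_ge_atTop 1)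
  obtain ⟨T0, hT0⟩ := Filter.eventually_atTop.1 h'
  refine ⟨T0, fun t ht => ?_⟩
  obtain ⟨h1, h2⟩ := hT0 t ht
  have h2' : (1 : ℝ) ≤ (t : ℝ) ^ b := one_le_pow₀ (by exact_mod_cast h2)
  have h3 : (t : ℝ) ^ b * ((a : ℝ) + K + 1) < 2 ^ t := by
    have hp : (0 : ℝ) < (2 : ℝ) ^ t := by positivity
    have hq : (0 : ℝ) < (a : ℝ) + K + 1 := by positivity
    rw [div_lt_div_iff₀ hp hq] at h1
    linarith
  have hK : (K : ℝ) ≤ (K : ℝ) * (t : ℝ) ^ b := le_mul_of_one_le_right (by positivity) h2'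
  have h4 : (a : ℝ) * (t : ℝ) ^ b + K < 2 ^ t := by nlinarith
  exact_mod_cast h4

theorem ARI_lg_mono {m n : ℕ} (h : m ≤ n) : lg m ≤ lg n := by
  unfold lg
  exact Nat.log_mono_right (by omega)

theorem ARI : ARI_stmt := by
  constructor
  · intro b
    obtain ⟨T0, hT0⟩ := ARI_exp (2 ^ b) b b
    refine ⟨T0, fun u hu n => ?_⟩
    by_contra hlt
    push Not at hlt
    have h1 := hu (n + T0 + n)
    have h2 : 2 ^ (n + T0) ≤ 2 ^ u (n + T0 + n) := Nat.pow_le_pow_right (by norm_num) hlt.le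
    have h3 : (n + T0 + n) ^ b ≤ (2 * (n + T0)) ^ b := Nat.pow_le_pow_left (by omega) b
    have h4 := hT0 (n + T0) (by omega)
    rw [mul_pow] at h3
    omega
  · intro b
    obtain ⟨T0, hT0⟩ := ARI_exp (b * 2 ^ b) b 2
    refine ⟨2 ^ T0, fun u hu n => ?_⟩
    by_contra hlt
    push Not at hlt
    have h1 := hu (n + 2 ^ T0 + n)
    have h2 : n + 2 ^ T0 ≤ min (u (n + 2 ^ T0 + n)) (n + 2 ^ T0 + n) :=
      le_min hlt.le (Nat.le_add_right _ _)
    have h3 : lg (n + 2 ^ T0 + n) ≤ 2 * lg (n + 2 ^ T0) :=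
      (ARI_lg_mono (Nat.add_le_add_left (Nat.le_add_right _ _) _)).trans (lg_two _)
    have h4 : T0 ≤ lg (n + 2 ^ T0) := by
      unfold lg
      apply Nat.le_log_of_pow_le (by norm_num)
      exact (Nat.le_add_left _ _).trans (Nat.le_add_right _ _)
    have h5 := hT0 _ h4
    have h6 : lg (n + 2 ^ T0 + n) ^ b ≤ 2 ^ b * lg (n + 2 ^ T0) ^ b := by
      rw [← mul_pow]
      exact Nat.pow_le_pow_left h3 b
    have h7 : 2 ^ lg (n + 2 ^ T0) ≤ n + 2 ^ T0 + 2 := by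
      unfold lg
      exact Nat.pow_log_le_self 2 (Nat.succ_ne_zero _)
    have h8 : b * lg (n + 2 ^ T0 + n) ^ b ≤ b * 2 ^ b * lg (n + 2 ^ T0) ^ b := by
      rw [mul_assoc]
      exact Nat.mul_le_mul_left b h6
    have h9 : n + 2 ^ T0 ≤ b * 2 ^ b * lg (n + 2 ^ T0) ^ b := (h2.trans h1).trans h8
    have h10 : b * 2 ^ b * lg (n + 2 ^ T0) ^ b + 2 < n + 2 ^ T0 + 2 := lt_of_lt_of_le h5 h7
    exact absurd h9 (by
      have := Nat.lt_of_add_lt_add_right h10
      exact not_le.2 this)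

end Pool.Agent.LN
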