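import Pool.Agent.helper69.LN.ESpec

/-!
# Project LN, row EGA: from a clique of the gadget graph to a clique of one block of the input
-/

set_option autoImplicit false

namespace Pool.Agent.LN

open Finset Pool.Agent.helper38.Neg Pool.Agent.helper55.NT Pool.Agent.Mix

theorem EGA : EGA_stmt := by
  intro M r K l w E P x S hl hcard hadj
  have hinj : Function.Injective (fun s : S => wcls s.1) := by
    intro s t hst
    by_contra hne
    exact (hadj s.1 s.2 t.1 t.2 (fun h => hne (Subtype.ext h))).1 hst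
  have hbij : Function.Bijective (fun s : S => wcls s.1) := by
    apply hinj.bijective_of_nat_card_le
    have hS : Nat.card S = S.card := by simp
    rw [hS, hcard]
  have hsur : ∀ κ : Wk P l w, ∃ α ∈ S, wcls α = κ := by
    intro κ
    obtain ⟨s, hs⟩ := hbij.2 κ
    exact ⟨s.1, s.2, hs⟩
  -- the slots
  have hslot : ∀ i : Fin l, ∃ c : Fin r, (Sum.inr (Sum.inl (i, c)) : Wt P l w) ∈ S := by
    intro i
    obtain ⟨α, hα, hc⟩ := hsur (Sum.inr (Sum.inl i))
    match α, hα, hc with
    | Sum.inl (a, b), _, hc => simp [wcls] at hc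
    | Sum.inr (Sum.inl (i', c)), hα, hc =>
      have : i' = i := by simpa [wcls] using hc
      subst this
      exact ⟨c, hα⟩
    | Sum.inr (Sum.inr (Sum.inl (ij, cd, q))), _, hc => simp [wcls] at hc
    | Sum.inr (Sum.inr (Sum.inr i')), _, hc => simp [wcls] at hc
  choose c hc using hslot
  -- the vertices
  have hver : ∀ a : Tv P, ∃ b : Bool, (Sum.inl (a, b) : Wt P l w) ∈ S := by
    intro a
    obtain ⟨α, hα, hc⟩ := hsur (Sum.inl a)
    match α, hα, hc with
    | Sum.inl (a', b), hα, hc =>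
      have : a' = a := by simpa [wcls] using hc
      subst this
      exact ⟨b, hα⟩
    | Sum.inr (Sum.inl (i', c)), _, hc => simp [wcls] at hc
    | Sum.inr (Sum.inr (Sum.inl (ij, cd, q))), _, hc => simp [wcls] at hc
    | Sum.inr (Sum.inr (Sum.inr i')), _, hc => simp [wcls] at hc
  -- the pairs
  have hpl : ∀ ij : Pr l, ∃ (cd : Pr r) (q : Fin K),
      (Sum.inr (Sum.inr (Sum.inl (ij, cd, q))) : Wt P l w) ∈ S := by
    intro ij
    obtain ⟨α, hα, hc⟩ := hsur (Sum.inr (Sum.inr (Sum.inl ij)))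
    match α, hα, hc with
    | Sum.inl (a, b), _, hc => simp [wcls] at hc
    | Sum.inr (Sum.inl (i', c)), _, hc => simp [wcls] at hc
    | Sum.inr (Sum.inr (Sum.inl (ij', cd, q))), hα, hc =>
      have : ij' = ij := by simpa [wcls] using hc
      subst this
      exact ⟨cd, q, hα⟩
    | Sum.inr (Sum.inr (Sum.inr i')), _, hc => simp [wcls] at hc
  have hsame : ∀ (ij ij' : Pr l) (cd cd' : Pr r) (q q' : Fin K),
      (Sum.inr (Sum.inr (Sum.inl (ij, cd, q))) : Wt P l w) ∈ S →
      (Sum.inr (Sum.inr (Sum.inl (ij', cd', q'))) : Wt P l w) ∈ S → q = q' := by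
    intro ij ij' cd cd' q q' h h'
    by_contra hne
    have hne' : (Sum.inr (Sum.inr (Sum.inl (ij, cd, q))) : Wt P l w) ≠
        Sum.inr (Sum.inr (Sum.inl (ij', cd', q'))) := by
      intro he
      apply hne
      simp only [Sum.inr.injEq, Sum.inl.injEq, Prod.mk.injEq] at he
      exact he.2.2
    exact (hadj _ h _ h' hne').2.1 hne
  -- the forest
  have hq : ∃ q : Fin K, ∀ ij : Pr l, ∃ cd : Pr r,
      (Sum.inr (Sum.inr (Sum.inl (ij, cd, q))) : Wt P l w) ∈ S := by
    have h01 : (⟨0, by omega⟩ : Fin l) < ⟨1, by omega⟩ := by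
      rw [Fin.lt_def]
      exact Nat.zero_lt_one
    obtain ⟨cd, q, h0⟩ := hpl ⟨(⟨0, by omega⟩, ⟨1, by omega⟩), h01⟩
    refine ⟨q, fun ij => ?_⟩
    obtain ⟨cd', q', h'⟩ := hpl ij
    have := hsame _ _ _ _ _ _ h0 h'
    subst this
    exact ⟨cd', h'⟩
  obtain ⟨q, hq⟩ := hq
  have hpair : ∀ i j : Fin l, i < j → ∃ h : c i < c j, x q ⟨(c i, c j), h⟩ = true := by
    intro i j hij
    obtain ⟨cd, hcd⟩ := hq ⟨(i, j), hij⟩
    have h1 : c i = cd.1.1 := by
      by_contra hne
      have := (hadj _ (hc i) _ hcd (by simp)).2.1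
      exact this (Or.inl ⟨rfl, hne⟩)
    have h2 : c j = cd.1.2 := by
      by_contra hne
      have := (hadj _ (hc j) _ hcd (by simp)).2.1
      exact this (Or.inr ⟨rfl, hne⟩)
    -- the leaf
    obtain ⟨b, hb⟩ := hver ⟨P.leaf q cd, q, cd, Or.inl rfl⟩
    have hbt : b = true := by
      cases b with
      | true => rfl
      | false =>
        exfalso
        have := (hadj _ hb _ hcd (by simp)).2.1
        exact this (Or.inl rfl)
    subst hbt
    -- the centre
    obtain ⟨b', hb'⟩ := hver ⟨P.cen q cd, q, cd, Or.inr rfl⟩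
    have hbt' : b' = true := by
      cases b' with
      | true => rfl
      | false =>
        exfalso
        have := (hadj _ hb' _ hcd (by simp)).2.1
        exact this (Or.inr rfl)
    subst hbt'
    have hne : (Sum.inl ((⟨P.leaf q cd, q, cd, Or.inl rfl⟩ : Tv P), true) : Wt P l w) ≠
        Sum.inl (⟨P.cen q cd, q, cd, Or.inr rfl⟩, true) := by
      intro he
      simp only [Sum.inl.injEq, Prod.mk.injEq, and_true, Subtype.mk.injEq] at he
      exact P.dis q cd cd he
    have hx : x q cd = true := (hadj _ hb _ hb' hne).2.2.2.1 q cd ⟨rfl, rfl⟩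
    have hlt : c i < c j := by rw [h1, h2]; exact cd.2
    refine ⟨hlt, ?_⟩
    have : (⟨(c i, c j), hlt⟩ : Pr r) = cd := Subtype.ext (Prod.ext h1 h2)
    rw [this]
    exact hx
  have hci : Function.Injective c := by
    intro i j hij
    rcases lt_trichotomy i j with h | h | h
    · obtain ⟨h', _⟩ := hpair i j h
      rw [hij] at h'
      exact absurd h' (lt_irrefl _)
    · exact h
    · obtain ⟨h', _⟩ := hpair j i h
      rw [hij] at h'
      exact absurd h' (lt_irrefl _)
  refine ⟨q, Finset.univ.map ⟨c, hci⟩, by simp, ?_⟩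
  intro a ha b hb hab
  simp only [Finset.mem_map, Finset.mem_univ, Function.Embedding.coeFn_mk, true_and] at ha hb
  obtain ⟨i, rfl⟩ := ha
  obtain ⟨j, rfl⟩ := hb
  rcases lt_trichotomy i j with h | h | h
  · obtain ⟨_, h'⟩ := hpair i j h
    exact h'
  · subst h
    exact absurd hab (lt_irrefl _)
  · obtain ⟨h', _⟩ := hpair j i h
    exact absurd (hab.trans h') (lt_irrefl _)

end Pool.Agent.LN
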