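import Pool.Agent.helper69.LN.Spec

/-!
# Project LN, row GA: from a clique of the gadget graph to a clique of the input
-/

set_option autoImplicit false

namespace Pool.Agent.LN

open Finset Pool.Agent.helper38.Neg Pool.Agent.helper55.NT

theorem GA : GA_stmt := by
  intro M r l w cen x S hcard hadj
  have hinj : Function.Injective (fun s : S => cls s.1) := by
    intro s t hst
    by_contra hne
    exact (hadj s.1 s.2 t.1 t.2 (fun h => hne (Subtype.ext h))).1 hst
  have hbij : Function.Bijective (fun s : S => cls s.1) := by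
    apply hinj.bijective_of_nat_card_le
    have hS : Nat.card S = S.card := by simp
    rw [hS, hcard]
  have hsur : ∀ κ : Kl cen l w, ∃ α ∈ S, cls α = κ := by
    intro κ
    obtain ⟨s, hs⟩ := hbij.2 κ
    exact ⟨s.1, s.2, hs⟩
  -- the slots
  have hslot : ∀ i : Fin l, ∃ c : Fin r, (Sum.inr (Sum.inr (Sum.inl (i, c))) : Vt cen l w) ∈ S := by
    intro i
    obtain ⟨α, hα, hc⟩ := hsur (Sum.inr (Sum.inr (Sum.inl i)))
    match α, hα, hc with
    | Sum.inl q, _, hc => simp [cls] at hc
    | Sum.inr (Sum.inl (e, b)), _, hc => simp [cls] at hc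
    | Sum.inr (Sum.inr (Sum.inl (i', c))), hα, hc =>
      have : i' = i := by simpa [cls] using hc
      subst this
      exact ⟨c, hα⟩
    | Sum.inr (Sum.inr (Sum.inr (Sum.inl (ij, cd)))), _, hc => simp [cls] at hc
    | Sum.inr (Sum.inr (Sum.inr (Sum.inr i'))), _, hc => simp [cls] at hc
  choose c hc using hslot
  have hpair : ∀ i j : Fin l, i < j → ∃ h : c i < c j, x ⟨(c i, c j), h⟩ = true := by
    intro i j hij
    obtain ⟨α, hα, hcl⟩ := hsur (Sum.inr (Sum.inr (Sum.inr (Sum.inl ⟨(i, j), hij⟩))))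
    have hα' : ∃ cd : Pr r, (Sum.inr (Sum.inr (Sum.inr (Sum.inl (⟨(i, j), hij⟩, cd)))) :
        Vt cen l w) ∈ S := by
      match α, hα, hcl with
      | Sum.inl q, _, hc => simp [cls] at hc
      | Sum.inr (Sum.inl (e, b)), _, hc => simp [cls] at hc
      | Sum.inr (Sum.inr (Sum.inl (i', c))), hα, hc => simp [cls] at hc
      | Sum.inr (Sum.inr (Sum.inr (Sum.inl (ij, cd)))), hα, hc =>
        have : ij = ⟨(i, j), hij⟩ := by simpa [cls] using hc
        subst this
        exact ⟨cd, hα⟩
      | Sum.inr (Sum.inr (Sum.inr (Sum.inr i'))), _, hc => simp [cls] at hc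
    obtain ⟨cd, hcd⟩ := hα'
    have h1 : c i = cd.1.1 := by
      by_contra hne
      have := (hadj _ (hc i) _ hcd (by simp)).2.1
      exact this (Or.inl ⟨rfl, hne⟩)
    have h2 : c j = cd.1.2 := by
      by_contra hne
      have := (hadj _ (hc j) _ hcd (by simp)).2.1
      exact this (Or.inr ⟨rfl, hne⟩)
    -- the label of the class of `cd`
    obtain ⟨β, hβ, hβc⟩ := hsur (Sum.inr (Sum.inl cd))
    have hβ' : ∃ b : Bool, (Sum.inr (Sum.inl (cd, b)) : Vt cen l w) ∈ S := by
      match β, hβ, hβc with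
      | Sum.inl q, _, hc => simp [cls] at hc
      | Sum.inr (Sum.inl (e, b)), hβ, hc =>
        have : e = cd := by simpa [cls] using hc
        subst this
        exact ⟨b, hβ⟩
      | Sum.inr (Sum.inr (Sum.inl (i', c))), _, hc => simp [cls] at hc
      | Sum.inr (Sum.inr (Sum.inr (Sum.inl (ij, cd)))), _, hc => simp [cls] at hc
      | Sum.inr (Sum.inr (Sum.inr (Sum.inr i'))), _, hc => simp [cls] at hc
    obtain ⟨b, hb⟩ := hβ'
    have hbt : b = true := by
      cases b with
      | true => rfl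
      | false =>
        exfalso
        have := (hadj _ hb _ hcd (by simp)).2.1
        exact this rfl
    subst hbt
    -- the centre
    obtain ⟨γ, hγ, hγc⟩ := hsur (Sum.inl ⟨cen cd, cd, rfl⟩)
    have hγ' : (Sum.inl ⟨cen cd, cd, rfl⟩ : Vt cen l w) ∈ S := by
      match γ, hγ, hγc with
      | Sum.inl q, hγ, hc =>
        have : q = ⟨cen cd, cd, rfl⟩ := by simpa [cls] using hc
        subst this
        exact hγ
      | Sum.inr (Sum.inl (e, b)), _, hc => simp [cls] at hc
      | Sum.inr (Sum.inr (Sum.inl (i', c))), _, hc => simp [cls] at hc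
      | Sum.inr (Sum.inr (Sum.inr (Sum.inl (ij, cd)))), _, hc => simp [cls] at hc
      | Sum.inr (Sum.inr (Sum.inr (Sum.inr i'))), _, hc => simp [cls] at hc
    have hx : x cd = true := (hadj _ hb _ hγ' (by simp)).2.2.2.1 cd ⟨rfl, rfl⟩
    have hlt : c i < c j := by rw [h1, h2]; exact cd.2
    refine ⟨hlt, ?_⟩
    have : (⟨(c i, c j), hlt⟩ : Pr r) = cd := Subtype.ext (Prod.ext h1 h2)
    rw [this]
    exact hx
  have hci : Function.Injective c := by
    intro i j hij
    rcases lt_trichotomy i j with h | h | h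
    · obtain ⟨h', _⟩ := hpair i j h
      rw [hij] at h'
      exact absurd h' (lt_irrefl _)
    · exact h
    · obtain ⟨h', _⟩ := hpair j i h
      rw [hij] at h'
      exact absurd h' (lt_irrefl _)
  refine ⟨Finset.univ.map ⟨c, hci⟩, by simp, ?_⟩
  intro a ha b hb hab
  simp only [Finset.mem_map, Finset.mem_univ, Function.Embedding.coeFn_mk, true_and] at ha hb
  obtain ⟨i, rfl⟩ := ha
  obtain ⟨j, rfl⟩ := hb
  rcases lt_trichotomy i j with h | h | h
  · obtain ⟨_, h'⟩ := hpair i j h
    exact h'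
  · subst h
    exact absurd hab (lt_irrefl _)
  · obtain ⟨h', _⟩ := hpair j i h
    exact absurd (hab.trans h') (lt_irrefl _)

end Pool.Agent.LN
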